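import Pool.Agent.helper40.TW.SpecG
import Pool.Agent.helper95.TG.SW3c

open Complex MeasureTheory Metric
open scoped ComplexConjugate ArithmeticFunction.vonMangoldt

namespace Pool.Agent.TWG

theorem LOW : LOW_stmt := by
  obtain ⟨c, hc, h⟩ := Pool.Agent.helper74.TG.lower_trivial
  refine ⟨c, hc, fun q χ hq r v hr hr1 => ?_⟩
  have hre : (sp r v).re = 1 + r := by simp [sp]
  have h1 : 1 < (sp r v).re := by rw [hre]; linarith
  have h2 := h q hq χ (sp r v) h1 (by rw [hre]; linarith)
  have : NeZero q := ⟨by omega⟩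
  have e : Pool.Agent.helper39.MT.DD χ 0 (sp r v) = LL χ (sp r v) := by
    have hq0 : q ≠ 0 := by omega
    have e1 : LL χ (sp r v) = DirichletCharacter.LFunction χ (sp r v) := by
      unfold LL
      rw [dif_neg hq0]
    rw [e1, DirichletCharacter.LFunction_eq_LSeries χ h1]
    unfold Pool.Agent.helper39.MT.DD
    simp
  rw [e, hre] at h2
  have : 1 + r - 1 = r := by ring
  rw [this] at h2
  exact h2

end Pool.Agent.TWG
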